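import Mathlib

/-!
# Integrals of derivatives over half spaces
-/

open scoped Topology
open Set Filter MeasureTheory

namespace Pool.Agent.R729.Trop

section
variable {X Y : Type*} [NormedAddCommGroup X] [NormedSpace ℝ X] [NormedAddCommGroup Y]
  [NormedSpace ℝ Y]

lemma compact_slice {G : X × Y → ℝ} (hc : HasCompactSupport G) (y : Y) :
    HasCompactSupport fun x => G (x, y) := by
  refine HasCompactSupport.intro (K := Prod.fst '' tsupport G) (hc.image continuous_fst) ?_
  intro x hx
  exact image_eq_zero_of_notMem_tsupport fun h => hx ⟨_, h, rfl⟩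

lemma compact_slice' {G : X × Y → ℝ} (hc : HasCompactSupport G) (x : X) :
    HasCompactSupport fun y => G (x, y) := by
  refine HasCompactSupport.intro (K := Prod.snd '' tsupport G) (hc.image continuous_snd) ?_
  intro y hy
  exact image_eq_zero_of_notMem_tsupport fun h => hy ⟨_, h, rfl⟩

lemma fderiv_slice {G : X × Y → ℝ} (hG : ContDiff ℝ 1 G) (x : X) (y : Y) (v : X) :
    fderiv ℝ (fun x => G (x, y)) x v = fderiv ℝ G (x, y) (v, 0) := by
  have h1 : HasFDerivAt (fun x : X => (x, y)) (ContinuousLinearMap.inl ℝ X Y) x :=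
    hasFDerivAt_prodMk_left x y
  have h2 := ((hG.differentiable (by simp) (x, y)).hasFDerivAt).comp x h1
  have h3 : HasFDerivAt (fun x => G (x, y)) _ x := h2
  rw [h3.fderiv]
  simp

lemma fderiv_slice' {G : X × Y → ℝ} (hG : ContDiff ℝ 1 G) (x : X) (y : Y) (v : Y) :
    fderiv ℝ (fun y => G (x, y)) y v = fderiv ℝ G (x, y) (0, v) := by
  have h1 : HasFDerivAt (fun y : Y => (x, y)) (ContinuousLinearMap.inr ℝ X Y) y :=
    hasFDerivAt_prodMk_right x y
  have h2 := ((hG.differentiable (by simp) (x, y)).hasFDerivAt).comp y h1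
  have h3 : HasFDerivAt (fun y => G (x, y)) _ y := h2
  rw [h3.fderiv]
  simp

end

lemma cont_dir {X : Type*} [NormedAddCommGroup X] [NormedSpace ℝ X] {G : X → ℝ}
    (hG : ContDiff ℝ 1 G) (v : X) : Continuous fun p => fderiv ℝ G p v :=
  (hG.continuous_fderiv (by simp)).clm_apply continuous_const

lemma supp_dir {X : Type*} [NormedAddCommGroup X] [NormedSpace ℝ X] {G : X → ℝ}
    (hc : HasCompactSupport G) (v : X) : HasCompactSupport fun p => fderiv ℝ G p v :=
  (hc.fderiv ℝ).comp_left (g := fun L : X →L[ℝ] ℝ => L v) (by simp)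

lemma integral_deriv_zero {g : ℝ → ℝ} (hg : ContDiff ℝ 1 g) (hc : HasCompactSupport g) :
    ∫ t, deriv g t = 0 := by
  refine integral_eq_zero_of_hasDerivAt_of_integrable (f := g)
    (fun x => (hg.differentiable (by simp) x).hasDerivAt) ?_ ?_
  · exact (hg.continuous_deriv le_rfl).integrable_of_hasCompactSupport hc.deriv
  · exact hg.continuous.integrable_of_hasCompactSupport hc

/-- Two variables. -/
lemma integral_two {g : ℝ × ℝ → ℝ} (hg : ContDiff ℝ 1 g) (hc : HasCompactSupport g) :
    (∫ p, fderiv ℝ g p (1, 0) = 0) ∧ ∫ p, fderiv ℝ g p (0, 1) = 0 := by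
  constructor
  · have hi := (cont_dir hg (1, 0)).integrable_of_hasCompactSupport (μ := volume)
      (supp_dir hc (1, 0))
    rw [Measure.volume_eq_prod] at hi ⊢
    rw [integral_prod_symm _ hi]
    simp_rw [← fderiv_slice hg]
    have : ∀ y : ℝ, ∫ x : ℝ, fderiv ℝ (fun x => g (x, y)) x 1 = 0 := by
      intro y
      exact integral_deriv_zero (hg.comp (contDiff_id.prodMk contDiff_const)) (compact_slice hc y)
    simp_rw [this]
    simp
  · have hi := (cont_dir hg (0, 1)).integrable_of_hasCompactSupport (μ := volume)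
      (supp_dir hc (0, 1))
    rw [Measure.volume_eq_prod] at hi ⊢
    rw [integral_prod _ hi]
    simp_rw [← fderiv_slice' hg]
    have : ∀ x : ℝ, ∫ y : ℝ, fderiv ℝ (fun y => g (x, y)) y 1 = 0 := by
      intro x
      exact integral_deriv_zero (hg.comp (contDiff_const.prodMk contDiff_id)) (compact_slice' hc x)
    simp_rw [this]
    simp

/-- Tangential derivatives integrate to zero. -/
lemma integral_tangential {G : ℝ × (ℝ × ℝ) → ℝ} (hG : ContDiff ℝ 1 G) (hc : HasCompactSupport G)
    (I : Set ℝ) :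
    (∫ p in I ×ˢ (univ : Set (ℝ × ℝ)), fderiv ℝ G p (0, (1, 0)) = 0) ∧
      ∫ p in I ×ˢ (univ : Set (ℝ × ℝ)), fderiv ℝ G p (0, (0, 1)) = 0 := by
  have key : ∀ v : ℝ × ℝ, (∀ s, ∫ q, fderiv ℝ (fun q => G (s, q)) q v = 0) →
      ∫ p in I ×ˢ (univ : Set (ℝ × ℝ)), fderiv ℝ G p (0, v) = 0 := by
    intro v hv
    have hi := (cont_dir hG (0, v)).integrable_of_hasCompactSupport (μ := volume)
      (supp_dir hc (0, v))
    rw [Measure.volume_eq_prod] at hi ⊢
    rw [setIntegral_prod _ hi.integrableOn]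
    simp_rw [← fderiv_slice' hG, Measure.restrict_univ, hv]
    simp
  have hs : ∀ s, ContDiff ℝ 1 fun q => G (s, q) := fun s =>
    hG.comp (contDiff_const.prodMk contDiff_id)
  exact ⟨key _ fun s => (integral_two (hs s) (compact_slice' hc s)).1,
    key _ fun s => (integral_two (hs s) (compact_slice' hc s)).2⟩

lemma integral_Iio_normal {G : ℝ × (ℝ × ℝ) → ℝ} (hG : ContDiff ℝ 1 G)
    (hc : HasCompactSupport G) :
    ∫ p in (Iio (0 : ℝ)) ×ˢ (univ : Set (ℝ × ℝ)), fderiv ℝ G p (1, 0) = ∫ q, G (0, q) := by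
  have hi := (cont_dir hG (1, 0)).integrable_of_hasCompactSupport (μ := volume)
    (supp_dir hc (1, 0))
  rw [Measure.volume_eq_prod] at hi ⊢
  rw [← Measure.prod_restrict, Measure.restrict_univ, integral_prod_symm]
  · simp_rw [← fderiv_slice hG]
    congr 1
    ext q
    rw [← integral_Iic_eq_integral_Iio]
    exact (compact_slice hc q).integral_Iic_deriv_eq
      (hG.comp (contDiff_id.prodMk contDiff_const)) 0
  · have := hi.integrableOn (s := (Iio (0 : ℝ)) ×ˢ (univ : Set (ℝ × ℝ)))
    rw [IntegrableOn, ← Measure.prod_restrict, Measure.restrict_univ] at this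
    exact this

lemma integral_Ioi_normal {G : ℝ × (ℝ × ℝ) → ℝ} (hG : ContDiff ℝ 1 G)
    (hc : HasCompactSupport G) :
    ∫ p in (Ioi (0 : ℝ)) ×ˢ (univ : Set (ℝ × ℝ)), fderiv ℝ G p (1, 0) = - ∫ q, G (0, q) := by
  have hi := (cont_dir hG (1, 0)).integrable_of_hasCompactSupport (μ := volume)
    (supp_dir hc (1, 0))
  rw [Measure.volume_eq_prod] at hi ⊢
  rw [← Measure.prod_restrict, Measure.restrict_univ, integral_prod_symm, ← integral_neg]
  · simp_rw [← fderiv_slice hG]
    congr 1
    ext q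
    exact (compact_slice hc q).integral_Ioi_deriv_eq
      (hG.comp (contDiff_id.prodMk contDiff_const)) 0
  · have := hi.integrableOn (s := (Ioi (0 : ℝ)) ×ˢ (univ : Set (ℝ × ℝ)))
    rw [IntegrableOn, ← Measure.prod_restrict, Measure.restrict_univ] at this
    exact this

end Pool.Agent.R729.Trop
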