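import Pool.Agent.R729.Trop.Surface

/-!
# Holomorphic curves contained in the tropical line
-/

open scoped ContDiff Manifold Topology
open Set Filter

namespace Pool.Agent.R729.Trop

/-- The set where `max (re w₁) (re w₂) 0` is attained at least twice. -/
def trop : Set (ℂ × ℂ) :=
  {w | (w.1.re = 0 ∧ w.2.re ≤ 0) ∨ (w.2.re = 0 ∧ w.1.re ≤ 0) ∨ (w.1.re = w.2.re ∧ 0 ≤ w.1.re)}

lemma isClosed_trop : IsClosed trop := by
  have c1 : Continuous fun w : ℂ × ℂ => w.1.re := Complex.continuous_re.comp continuous_fst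
  have c2 : Continuous fun w : ℂ × ℂ => w.2.re := Complex.continuous_re.comp continuous_snd
  refine IsClosed.union ?_ (IsClosed.union ?_ ?_)
  · exact (isClosed_eq c1 continuous_const).inter (isClosed_le c2 continuous_const)
  · exact (isClosed_eq c2 continuous_const).inter (isClosed_le c1 continuous_const)
  · exact (isClosed_eq c1 c2).inter (isClosed_le continuous_const c1)

variable {S : Type*} [TopologicalSpace S] [ChartedSpace ℂ S] [IsManifold 𝓘(ℂ) ω S]
  [ConnectedSpace S]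

/-- A holomorphic map into the tropical line cannot meet its vertex set unless it is constant. -/
lemma corner {h : S → ℂ × ℂ} (hh : MDifferentiable 𝓘(ℂ) 𝓘(ℂ, ℂ × ℂ) h) {z₀ : S}
    (htrop : ∀ᶠ z in 𝓝 z₀, h z ∈ trop) (h1 : (h z₀).1.re = 0) (h2 : (h z₀).2.re = 0) :
    ∀ z, h z = h z₀ := by
  have f1 : MDifferentiable 𝓘(ℂ) 𝓘(ℂ) (fun z => (h z).1) :=
    (ContinuousLinearMap.fst ℂ ℂ ℂ).mdifferentiable.comp hh
  have f2 : MDifferentiable 𝓘(ℂ) 𝓘(ℂ) (fun z => (h z).2) :=
    (ContinuousLinearMap.snd ℂ ℂ ℂ).mdifferentiable.comp hh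
  -- first coordinate
  have key : ∀ (f g : S → ℂ), MDifferentiable 𝓘(ℂ) 𝓘(ℂ) f → MDifferentiable 𝓘(ℂ) 𝓘(ℂ) g →
      (f z₀).re = 0 → (g z₀).re = 0 →
      (∀ᶠ z in 𝓝 z₀, 0 < (f z).re → (g z).re = (f z).re) →
      (∀ᶠ z in 𝓝 z₀, (f z).re < 0 → (g z).re ≠ (f z).re) →
      ∀ z, f z = f z₀ := by
    intro f g hf hg hf0 hg0 hpos hneg
    rcases eventually_const_or_open hf z₀ with hc | ho
    · exact const_of_eventually hf hc
    · exfalso
      have hd : MDifferentiable 𝓘(ℂ) 𝓘(ℂ) (fun z => f z - g z) := hf.sub hg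
      -- near `z₀` there are points where `re f > 0`
      have hN : ∀ᶠ z in 𝓝 z₀, 0 < (f z).re → (g z).re = (f z).re := hpos
      obtain ⟨N, hNs, hNo, hzN⟩ := mem_nhds_iff.1 hN
      have himg : f '' N ∈ 𝓝 (f z₀) := by
        have : N ∈ 𝓝 z₀ := hNo.mem_nhds hzN
        exact ho (image_mem_map this)
      obtain ⟨ε, hε, hball⟩ := Metric.mem_nhds_iff.1 himg
      have hw : f z₀ + ((ε / 2 : ℝ) : ℂ) ∈ Metric.ball (f z₀) ε := by
        rw [Metric.mem_ball, dist_eq_norm, add_sub_cancel_left, Complex.norm_real,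
          Real.norm_eq_abs, abs_of_pos (half_pos hε)]
        linarith
      obtain ⟨z₁, hz₁, hfz₁⟩ := hball hw
      have hre1 : 0 < (f z₁).re := by
        rw [hfz₁, Complex.add_re, hf0, Complex.ofReal_re]
        linarith
      have hev : ∀ᶠ z in 𝓝 z₁, (f z - g z).re = 0 := by
        have h3 : ∀ᶠ z in 𝓝 z₁, 0 < (f z).re :=
          (Complex.continuous_re.continuousAt.comp (hf z₁).continuousAt).eventually
            (lt_mem_nhds hre1)
        filter_upwards [h3, hNo.mem_nhds hz₁] with z hz hzN'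
        rw [Complex.sub_re, hNs hzN' hz, sub_self]
      have hconst : ∀ᶠ z in 𝓝 z₁, f z - g z = f z₁ - g z₁ := by
        have h0 : (f z₁ - g z₁).re = 0 := hev.self_of_nhds
        exact eventually_const_of_re hd (by filter_upwards [hev] with z hz; rw [hz, h0])
      have hall := const_of_eventually hd hconst
      have h00 : (f z₁ - g z₁).re = 0 := by
        rw [← hall z₀, Complex.sub_re, hf0, hg0, sub_zero]
      -- and points where `re f < 0`
      obtain ⟨N', hNs', hNo', hzN'⟩ := mem_nhds_iff.1 hneg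
      have himg' : f '' N' ∈ 𝓝 (f z₀) := ho (image_mem_map (hNo'.mem_nhds hzN'))
      obtain ⟨ε', hε', hball'⟩ := Metric.mem_nhds_iff.1 himg'
      have hw' : f z₀ - ((ε' / 2 : ℝ) : ℂ) ∈ Metric.ball (f z₀) ε' := by
        rw [Metric.mem_ball, dist_eq_norm, sub_sub_cancel_left, norm_neg, Complex.norm_real,
          Real.norm_eq_abs, abs_of_pos (half_pos hε')]
        linarith
      obtain ⟨z₂, hz₂, hfz₂⟩ := hball' hw'
      have hre2 : (f z₂).re < 0 := by
        rw [hfz₂, Complex.sub_re, hf0, Complex.ofReal_re]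
        linarith
      apply hNs' hz₂ hre2
      have := congrArg Complex.re (hall z₂)
      rw [h00, Complex.sub_re] at this
      linarith
  have r1 := key (fun z => (h z).1) (fun z => (h z).2) f1 f2 h1 h2
    (by
      filter_upwards [htrop] with z hz hpos
      rcases hz with ⟨a, -⟩ | ⟨-, a⟩ | ⟨a, -⟩
      · linarith
      · linarith
      · exact a.symm)
    (by
      filter_upwards [htrop] with z hz hneg heq
      rcases hz with ⟨a, -⟩ | ⟨a, -⟩ | ⟨-, a⟩ <;> linarith)
  have r2 := key (fun z => (h z).2) (fun z => (h z).1) f2 f1 h2 h1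
    (by
      filter_upwards [htrop] with z hz hpos
      rcases hz with ⟨-, a⟩ | ⟨a, -⟩ | ⟨a, -⟩
      · linarith
      · linarith
      · exact a)
    (by
      filter_upwards [htrop] with z hz hneg heq
      rcases hz with ⟨a, -⟩ | ⟨a, -⟩ | ⟨-, a⟩ <;> linarith)
  intro z
  exact Prod.ext (r1 z) (r2 z)

/-- A proper holomorphic curve in a complex line `w ↦ a + w b` cannot stay, in a ball, strictly on one
side of the real hyperplane `re w = 0`. -/
lemma line {q : ℕ} {U : Set ((ℂ × ℂ) × (Fin q → ℝ))} {r : ℝ}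
    (hU : Metric.ball 0 r ⊆ U) {h : S → ℂ × ℂ} {y : Fin q → ℝ}
    (hproper : ∀ K, IsCompact K → K ⊆ U → IsCompact {z | (h z, y) ∈ K})
    (hnc : ¬ ∀ z z', h z = h z') {g : S → ℂ} (hg : MDifferentiable 𝓘(ℂ) 𝓘(ℂ) g)
    {a b : ℂ × ℂ} (hgab : ∀ z, h z = a + g z • b)
    (hrefl : ∀ w, ((a + w • b, y) : (ℂ × ℂ) × (Fin q → ℝ)) ∈ Metric.ball 0 r →
      ((a + (-(starRingEnd ℂ) w) • b, y) : (ℂ × ℂ) × (Fin q → ℝ)) ∈ Metric.ball 0 r)
    {s : ℝ} (hside : ∀ z, ((h z, y) : (ℂ × ℂ) × (Fin q → ℝ)) ∈ Metric.ball 0 r →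
      s * (g z).re ≤ 0)
    {z₀ : S} (hz₀ : ((h z₀, y) : (ℂ × ℂ) × (Fin q → ℝ)) ∈ Metric.ball 0 r)
    (hz₀' : s * (g z₀).re < 0) : False := by
  have hgc : Continuous g := hg.continuous
  have hcon : Continuous fun w : ℂ => ((a + w • b, y) : (ℂ × ℂ) × (Fin q → ℝ)) := by fun_prop
  -- the range of `g` is open
  have hR : IsOpen (range g) := by
    rw [isOpen_iff_mem_nhds]
    rintro _ ⟨z, rfl⟩
    rcases eventually_const_or_open hg z with hc | ho
    · exfalso
      have hall := const_of_eventually hg hc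
      apply hnc
      intro z1 z2
      rw [hgab, hgab, hall z1, hall z2]
    · exact ho (by rw [Filter.mem_map]; exact Filter.univ_mem' fun x => mem_range_self x)
  let D : Set ℂ := {w | ((a + w • b, y) : (ℂ × ℂ) × (Fin q → ℝ)) ∈ Metric.ball 0 r}
  have hDo : IsOpen D := Metric.isOpen_ball.preimage hcon
  have hDc : IsPreconnected D := by
    apply Convex.isPreconnected
    intro w₁ h₁ w₂ h₂ s t hs ht hst
    have hb := (convex_ball (0 : (ℂ × ℂ) × (Fin q → ℝ)) r) h₁ h₂ hs ht hst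
    show ((a + (s • w₁ + t • w₂) • b, y) : (ℂ × ℂ) × (Fin q → ℝ)) ∈ Metric.ball 0 r
    convert hb using 1
    have ha : a = s • a + t • a := by rw [← add_smul, hst, one_smul]
    have hy : y = s • y + t • y := by rw [← add_smul, hst, one_smul]
    refine Prod.ext ?_ hy
    show a + (s • w₁ + t • w₂) • b = s • (a + w₁ • b) + t • (a + w₂ • b)
    rw [add_smul, smul_add, smul_add, smul_assoc, smul_assoc]
    nth_rewrite 1 [ha]
    abel
  -- the complement of the range is open in `D`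
  have hO : IsOpen (D ∩ (range g)ᶜ) := by
    rw [isOpen_iff_mem_nhds]
    rintro w ⟨hwD, hwR⟩
    obtain ⟨ε, hε, hεb⟩ := Metric.isOpen_iff.1 Metric.isOpen_ball _ hwD
    let K := Metric.closedBall ((a + w • b, y) : (ℂ × ℂ) × (Fin q → ℝ)) (ε / 2)
    have hKU : K ⊆ U := (Metric.closedBall_subset_ball (half_lt_self hε)).trans (hεb.trans hU)
    have hKc : IsCompact K := isCompact_closedBall _ _
    have hC := (hproper K hKc hKU).image hgc
    have hwC : w ∉ g '' {z | (h z, y) ∈ K} := by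
      rintro ⟨z, -, rfl⟩
      exact hwR (mem_range_self z)
    have h1 : (g '' {z | (h z, y) ∈ K})ᶜ ∈ 𝓝 w := hC.isClosed.isOpen_compl.mem_nhds hwC
    have h2 : ∀ᶠ w' in 𝓝 w, ((a + w' • b, y) : (ℂ × ℂ) × (Fin q → ℝ)) ∈ K :=
      hcon.continuousAt.eventually (Metric.closedBall_mem_nhds _ (half_pos hε))
    filter_upwards [h1, h2, hDo.mem_nhds hwD] with w' h1' h2' h3'
    refine ⟨h3', ?_⟩
    rintro ⟨z, rfl⟩
    apply h1'
    refine ⟨z, ?_, rfl⟩
    show (h z, y) ∈ K
    rw [hgab]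
    exact h2'
  have hz₀D : g z₀ ∈ D := by
    show ((a + g z₀ • b, y) : (ℂ × ℂ) × (Fin q → ℝ)) ∈ Metric.ball 0 r
    rw [← hgab]
    exact hz₀
  rcases isPreconnected_iff_subset_of_disjoint.1 hDc (range g) (D ∩ (range g)ᶜ) hR hO
    (by
      intro w hw
      by_cases hw' : w ∈ range g
      · exact Or.inl hw'
      · exact Or.inr ⟨hw, hw'⟩)
    (by
      ext w
      simp only [mem_inter_iff, mem_compl_iff, mem_empty_iff_false, iff_false]
      rintro ⟨-, h1, -, h2⟩
      exact h2 h1) with h1 | h1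
  · have h2 : -(starRingEnd ℂ) (g z₀) ∈ D := hrefl _ hz₀D
    obtain ⟨z', hz'⟩ := h1 h2
    have h3 := hside z' (by
      rw [hgab, hz']
      exact h2)
    rw [hz', Complex.neg_re, Complex.conj_re] at h3
    linarith
  · exact (h1 hz₀D).2 (mem_range_self z₀)

/-- A non-constant proper holomorphic curve in `U` whose intersection with a ball about `0` is
contained in the tropical line does not meet this ball. -/
lemma no_curve {q : ℕ} {U : Set ((ℂ × ℂ) × (Fin q → ℝ))} {r : ℝ}
    (hU : Metric.ball 0 r ⊆ U) {h : S → ℂ × ℂ} {y : Fin q → ℝ}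
    (hh : MDifferentiable 𝓘(ℂ) 𝓘(ℂ, ℂ × ℂ) h)
    (hproper : ∀ K, IsCompact K → K ⊆ U → IsCompact {z | (h z, y) ∈ K})
    (hnc : ¬ ∀ z z', h z = h z')
    (htrop : ∀ z, ((h z, y) : (ℂ × ℂ) × (Fin q → ℝ)) ∈ Metric.ball 0 r → h z ∈ trop) (z₀ : S) :
    ((h z₀, y) : (ℂ × ℂ) × (Fin q → ℝ)) ∉ Metric.ball 0 r := by
  intro hz₀
  have f1 : MDifferentiable 𝓘(ℂ) 𝓘(ℂ) (fun z => (h z).1) :=
    (ContinuousLinearMap.fst ℂ ℂ ℂ).mdifferentiable.comp hh
  have f2 : MDifferentiable 𝓘(ℂ) 𝓘(ℂ) (fun z => (h z).2) :=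
    (ContinuousLinearMap.snd ℂ ℂ ℂ).mdifferentiable.comp hh
  have hhc : Continuous h := hh.continuous
  have hpair : Continuous fun z => ((h z, y) : (ℂ × ℂ) × (Fin q → ℝ)) := by fun_prop
  have hmem : ∀ᶠ z in 𝓝 z₀, h z ∈ trop := by
    filter_upwards [(Metric.isOpen_ball.preimage hpair).mem_nhds hz₀] with z hz using htrop z hz
  have hball : ∀ (w₁ w₂ : ℂ), (((w₁, w₂), y) : (ℂ × ℂ) × (Fin q → ℝ)) ∈ Metric.ball 0 r ↔
      ‖w₁‖ < r ∧ ‖w₂‖ < r ∧ ‖y‖ < r := by
    intro w₁ w₂
    rw [mem_ball_zero_iff, Prod.norm_mk, Prod.norm_mk, max_lt_iff, max_lt_iff, and_assoc]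
  have hc1 : ContinuousAt (fun z => (h z).1.re) z₀ :=
    (Complex.continuous_re.comp (continuous_fst.comp hhc)).continuousAt
  have hc2 : ContinuousAt (fun z => (h z).2.re) z₀ :=
    (Complex.continuous_re.comp (continuous_snd.comp hhc)).continuousAt
  by_cases hcor : (h z₀).1.re = 0 ∧ (h z₀).2.re = 0
  · apply hnc
    have := corner hh hmem hcor.1 hcor.2
    intro z z'
    rw [this z, this z']
  rcases htrop z₀ hz₀ with ⟨e1, e2⟩ | ⟨e1, e2⟩ | ⟨e1, e2⟩
  · -- first half line
    have hlt : (h z₀).2.re < 0 := lt_of_le_of_ne e2 fun h0 => hcor ⟨e1, h0⟩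
    have hev : ∀ᶠ z in 𝓝 z₀, (h z).1.re = 0 := by
      filter_upwards [hmem, hc2.eventually (gt_mem_nhds hlt)] with z hz hz2
      rcases hz with ⟨a, -⟩ | ⟨a, -⟩ | ⟨a, b⟩
      · exact a
      · linarith
      · linarith
    have hconst := const_of_eventually f1 (eventually_const_of_re f1 (z₀ := z₀)
      (by filter_upwards [hev] with z hz; rw [hz, e1]))
    refine line hU hproper hnc f2 (a := ((h z₀).1, 0)) (b := (0, 1)) (s := 1) ?_ ?_ ?_ hz₀ ?_
    · intro z
      ext1
      · simp [hconst z]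
      · simp
    · intro w hw
      simp only [Prod.smul_mk, smul_eq_mul, mul_zero, mul_one, Prod.mk_add_mk, add_zero, zero_add,
        hball] at hw ⊢
      refine ⟨hw.1, ?_, hw.2.2⟩
      rw [norm_neg, Complex.norm_conj]
      exact hw.2.1
    · intro z hz
      rw [one_mul]
      have h1 := htrop z hz
      have h2 : (h z).1.re = 0 := by rw [hconst z, e1]
      rcases h1 with ⟨-, a⟩ | ⟨a, -⟩ | ⟨a, -⟩ <;> linarith
    · rw [one_mul]
      exact hlt
  · -- second half line
    have hlt : (h z₀).1.re < 0 := lt_of_le_of_ne e2 fun h0 => hcor ⟨h0, e1⟩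
    have hev : ∀ᶠ z in 𝓝 z₀, (h z).2.re = 0 := by
      filter_upwards [hmem, hc1.eventually (gt_mem_nhds hlt)] with z hz hz2
      rcases hz with ⟨a, -⟩ | ⟨a, -⟩ | ⟨a, b⟩
      · linarith
      · exact a
      · linarith
    have hconst := const_of_eventually f2 (eventually_const_of_re f2 (z₀ := z₀)
      (by filter_upwards [hev] with z hz; rw [hz, e1]))
    refine line hU hproper hnc f1 (a := (0, (h z₀).2)) (b := (1, 0)) (s := 1) ?_ ?_ ?_ hz₀ ?_
    · intro z
      ext1
      · simp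
      · simp [hconst z]
    · intro w hw
      simp only [Prod.smul_mk, smul_eq_mul, mul_zero, mul_one, Prod.mk_add_mk, add_zero, zero_add,
        hball] at hw ⊢
      refine ⟨?_, hw.2⟩
      rw [norm_neg, Complex.norm_conj]
      exact hw.1
    · intro z hz
      rw [one_mul]
      have h1 := htrop z hz
      have h2 : (h z).2.re = 0 := by rw [hconst z, e1]
      rcases h1 with ⟨a, -⟩ | ⟨-, a⟩ | ⟨a, b⟩ <;> linarith
    · rw [one_mul]
      exact hlt
  · -- third half line
    have hlt : 0 < (h z₀).1.re := lt_of_le_of_ne e2 fun h0 => hcor ⟨h0.symm, by rw [← e1, ← h0]⟩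
    have hlt2 : 0 < (h z₀).2.re := e1 ▸ hlt
    have fd : MDifferentiable 𝓘(ℂ) 𝓘(ℂ) (fun z => (h z).2 - (h z).1) := f2.sub f1
    have hev : ∀ᶠ z in 𝓝 z₀, ((h z).2 - (h z).1).re = 0 := by
      filter_upwards [hmem, hc1.eventually (lt_mem_nhds hlt), hc2.eventually (lt_mem_nhds hlt2)]
        with z hz hz1 hz2
      rw [Complex.sub_re]
      rcases hz with ⟨a, -⟩ | ⟨a, -⟩ | ⟨a, b⟩
      · linarith
      · linarith
      · rw [a, sub_self]
    have hd0 : ((h z₀).2 - (h z₀).1).re = 0 := hev.self_of_nhds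
    have hconst := const_of_eventually fd (eventually_const_of_re fd (z₀ := z₀)
      (by filter_upwards [hev] with z hz; rw [hz, hd0]))
    refine line hU hproper hnc f1 (a := (0, (h z₀).2 - (h z₀).1)) (b := (1, 1)) (s := -1)
      ?_ ?_ ?_ hz₀ ?_
    · intro z
      ext1
      · simp
      · simp [← hconst z]
    · intro w hw
      simp only [Prod.smul_mk, smul_eq_mul, mul_one, Prod.mk_add_mk, zero_add, hball] at hw ⊢
      refine ⟨?_, ?_, hw.2.2⟩
      · rw [norm_neg, Complex.norm_conj]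
        exact hw.1
      · have h3 : (h z₀).2 - (h z₀).1 + -(starRingEnd ℂ) w
            = -(starRingEnd ℂ) ((h z₀).2 - (h z₀).1 + w) := by
          apply Complex.ext
          · simp only [Complex.add_re, Complex.neg_re, Complex.conj_re, hd0]
            ring
          · simp
            ring
        rw [h3, norm_neg, Complex.norm_conj]
        exact hw.2.1
    · intro z hz
      have h1 := htrop z hz
      have h2 : ((h z).2 - (h z).1).re = 0 := by rw [hconst z, hd0]
      rw [Complex.sub_re] at h2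
      rcases h1 with ⟨a, -⟩ | ⟨a, -⟩ | ⟨-, b⟩ <;> linarith
    · linarith

end Pool.Agent.R729.Trop
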