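import Mathlib

/-!
# Holomorphic maps from connected Riemann surfaces: identity theorem and open mapping
-/

open scoped ContDiff Manifold Topology
open Set Filter

namespace Pool.Agent.R729.Trop

variable {S : Type*} [TopologicalSpace S] [ChartedSpace ℂ S] [IsManifold 𝓘(ℂ) ω S]
variable {E : Type*} [NormedAddCommGroup E] [NormedSpace ℂ E] [CompleteSpace E]

/-- A holomorphic map read in a chart is analytic. -/
lemma analytic_chart {g : S → E} (hg : MDifferentiable 𝓘(ℂ) 𝓘(ℂ, E) g)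
    {φ : OpenPartialHomeomorph S ℂ} (hφ : φ ∈ atlas ℂ S) :
    AnalyticOnNhd ℂ (g ∘ φ.symm) φ.target := by
  rw [Complex.analyticOnNhd_iff_differentiableOn φ.open_target]
  have h1 : ContMDiffOn 𝓘(ℂ) 𝓘(ℂ) ω φ.symm φ.target :=
    contMDiffOn_symm_of_mem_maximalAtlas (IsManifold.subset_maximalAtlas hφ)
  have h2 : MDifferentiableOn 𝓘(ℂ) 𝓘(ℂ) φ.symm φ.target := h1.mdifferentiableOn (by simp)
  have h3 : MDifferentiableOn 𝓘(ℂ) 𝓘(ℂ, E) (g ∘ φ.symm) φ.target :=
    hg.comp_mdifferentiableOn h2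
  exact mdifferentiableOn_iff_differentiableOn.1 h3

/-- Identity theorem on a connected Riemann surface. -/
lemma const_of_eventually [ConnectedSpace S] {g : S → E}
    (hg : MDifferentiable 𝓘(ℂ) 𝓘(ℂ, E) g) {z₀ : S} {c : E} (h : ∀ᶠ z in 𝓝 z₀, g z = c) :
    ∀ z, g z = c := by
  let A : Set S := {z | ∀ᶠ z' in 𝓝 z, g z' = c}
  have hopen : IsOpen A := isOpen_setOfPred_eventually_nhds
  have hclosed : IsClosed A := by
    rw [← closure_subset_iff_isClosed]
    intro z hz
    let φ := chartAt ℂ z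
    have hφ : φ ∈ atlas ℂ S := chart_mem_atlas ℂ z
    have hzs : z ∈ φ.source := mem_chart_source ℂ z
    have han := analytic_chart hg hφ
    obtain ⟨ε, hε, hball⟩ := Metric.isOpen_iff.1 φ.open_target (φ z) (φ.map_source hzs)
    have hN : φ.source ∩ φ ⁻¹' Metric.ball (φ z) ε ∈ 𝓝 z :=
      (φ.continuousOn.isOpen_inter_preimage φ.open_source Metric.isOpen_ball).mem_nhds
        ⟨hzs, Metric.mem_ball_self hε⟩
    obtain ⟨a, ⟨has, hab⟩, haA⟩ := mem_closure_iff_nhds.1 hz _ hN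
    have h1 : (g ∘ φ.symm) =ᶠ[𝓝 (φ a)] fun _ => c := by
      have h2 : Tendsto φ.symm (𝓝 (φ a)) (𝓝 a) := by
        have := φ.continuousAt_symm (φ.map_source has)
        rw [ContinuousAt, φ.left_inv has] at this
        exact this
      exact h2.eventually haA
    have h3 := (han.mono hball).eqOn_of_preconnected_of_eventuallyEq analyticOnNhd_const
      (convex_ball (φ z) ε).isPreconnected hab h1
    have h4 : ∀ᶠ z' in 𝓝 z, φ z' ∈ Metric.ball (φ z) ε :=
      (φ.continuousAt hzs).eventually (Metric.ball_mem_nhds _ hε)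
    filter_upwards [h4, φ.open_source.mem_nhds hzs] with z' hz' hz's
    have := h3 hz'
    simp only [Function.comp_apply, φ.left_inv hz's] at this
    exact this
  have huniv : A = univ := IsClopen.eq_univ ⟨hclosed, hopen⟩ ⟨z₀, h⟩
  intro z
  have : z ∈ A := huniv ▸ mem_univ z
  exact this.self_of_nhds

/-- Open mapping theorem: a holomorphic function is locally constant or open at every point. -/
lemma eventually_const_or_open {g : S → ℂ} (hg : MDifferentiable 𝓘(ℂ) 𝓘(ℂ) g) (z₀ : S) :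
    (∀ᶠ z in 𝓝 z₀, g z = g z₀) ∨ 𝓝 (g z₀) ≤ map g (𝓝 z₀) := by
  let φ := chartAt ℂ z₀
  have hφ : φ ∈ atlas ℂ S := chart_mem_atlas ℂ z₀
  have hzs : z₀ ∈ φ.source := mem_chart_source ℂ z₀
  have han := analytic_chart hg hφ (φ z₀) (φ.map_source hzs)
  have hmap : map φ (𝓝 z₀) = 𝓝 (φ z₀) := φ.map_nhds_eq hzs
  have hmap' : map φ.symm (𝓝 (φ z₀)) = 𝓝 z₀ := φ.symm_map_nhds_eq hzs
  rcases han.eventually_constant_or_nhds_le_map_nhds with h | h
  · left
    have h2 := (φ.continuousAt hzs).eventually h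
    filter_upwards [h2, φ.open_source.mem_nhds hzs] with z hz hz's
    simpa [φ.left_inv hz's, φ.left_inv hzs] using hz
  · right
    rw [← Filter.map_map, hmap'] at h
    simpa [φ.left_inv hzs] using h

/-- A holomorphic function with constant real part near a point is constant near this point. -/
lemma eventually_const_of_re {g : S → ℂ} (hg : MDifferentiable 𝓘(ℂ) 𝓘(ℂ) g) {z₀ : S}
    (h : ∀ᶠ z in 𝓝 z₀, (g z).re ≤ (g z₀).re) : ∀ᶠ z in 𝓝 z₀, g z = g z₀ := by
  rcases eventually_const_or_open hg z₀ with h1 | h1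
  · exact h1
  · exfalso
    have h2 : ∀ᶠ w in 𝓝 (g z₀), w.re ≤ (g z₀).re := h1 h
    have h3 : Tendsto (fun t : ℝ => g z₀ + (t : ℂ)) (𝓝[>] 0) (𝓝 (g z₀)) := by
      have : Tendsto (fun t : ℝ => g z₀ + (t : ℂ)) (𝓝 0) (𝓝 (g z₀ + ((0 : ℝ) : ℂ))) :=
        (continuous_const.add Complex.continuous_ofReal).tendsto 0
      rw [Complex.ofReal_zero, add_zero] at this
      exact this.mono_left nhdsWithin_le_nhds
    obtain ⟨t, ht, ht0⟩ := ((h3.eventually h2).and self_mem_nhdsWithin).exists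
    simp at ht ht0
    linarith

lemma eventually_const_of_re' {g : S → ℂ} (hg : MDifferentiable 𝓘(ℂ) 𝓘(ℂ) g) {z₀ : S}
    (h : ∀ᶠ z in 𝓝 z₀, (g z₀).re ≤ (g z).re) : ∀ᶠ z in 𝓝 z₀, g z = g z₀ := by
  have h1 : MDifferentiable 𝓘(ℂ) 𝓘(ℂ) (fun z => - g z) := hg.neg
  have := eventually_const_of_re h1 (z₀ := z₀) (by simpa using h)
  simpa using this

end Pool.Agent.R729.Trop
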